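import Pool.Agent.N62.AG.Stm
import Pool.Agent.Y545.Z702.Tor

set_option autoImplicit false

/-!
# Project AG: soundness of the second search
-/

namespace Pool.Agent.N227.AG.SND2

open WeierstrassCurve
open Pool.Agent.N62.AG
open Pool.Agent.Z702 (WZ LocI S_TOR)
open Pool.Agent.Y668 (Wt_eqn)

theorem sq_of {n : ℤ} (h : IsSquare n) : Sq n := by
  obtain ⟨s, rfl⟩ := h
  refine ⟨s.natAbs, ?_, Int.natAbs_mul_self' s⟩
  rw [Int.natAbs_mul]
  have := Nat.le_mul_self s.natAbs
  omega

open Classical in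
/-- the map to the points of the short equation -/
noncomputable def toP (D : ℤ) : (WZ (13 * D) (128 * D ^ 2)).toAffine.Point → Option (Pts D)
  | .zero => none
  | .some x y h => some ⟨(9 * x + 39 * D, 27 * y), by
      have h1 := Wt_eqn.1 h.1
      show (27 * y) ^ 2 = (9 * x + 39 * D) ^ 3 + (AA D : ℚ) * (9 * x + 39 * D) + (BB D : ℚ)
      unfold AA BB
      push_cast at h1 ⊢
      linear_combination 729 * h1⟩

theorem toP_inj (D : ℤ) : Function.Injective (toP D) := by
  intro P Q h
  cases P with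
  | zero =>
    cases Q with
    | zero => rfl
    | some x y hx => exact absurd h (by unfold toP; simp)
  | some x y hx =>
    cases Q with
    | zero => exact absurd h (by unfold toP; simp)
    | some x' y' hx' =>
      have h1 := congrArg Subtype.val (Option.some.inj h)
      have h2 : (9 * x + 39 * D : ℚ) = 9 * x' + 39 * D := congrArg Prod.fst h1
      have h3 : (27 * y : ℚ) = 27 * y' := congrArg Prod.snd h1
      have h4 : x = x' := by linarith
      have h5 : y = y' := by linarith
      subst h4 h5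
      rfl

theorem nsq_two {q : ℚ} (hq : q ≠ 0) : ¬ IsSquare (2 * q ^ 2) := by
  rintro ⟨s, hs⟩
  have h1 : IsSquare (2 : ℚ) := ⟨s / q, by field_simp; linarith⟩
  have h2 : IsSquare ((2 : ℕ) : ℚ) := by exact_mod_cast h1
  rw [Rat.isSquare_natCast_iff] at h2
  exact absurd h2 (Irreducible.not_isSquare Nat.prime_two)

theorem t : S_SND2 := by
  intro D t hD hC hfin
  obtain ⟨h1, h3, he, hs1, hs2⟩ := hC
  have hD' : (D : ℚ) ≠ 0 := by exact_mod_cast hD
  have h1' : (t.1 : ℚ) ≠ 0 := by exact_mod_cast h1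
  have h3' : (t.2.2 : ℚ) ≠ 0 := by exact_mod_cast h3
  have he' : (t.2.1 * t.2.1 * t.2.2 : ℚ) = t.1 * (t.1 * t.1) - 26 * D * (t.1 * t.1) * t.2.2 -
    343 * (D * D) * t.1 * (t.2.2 * t.2.2) := by exact_mod_cast he
  have : Finite (Pts D) := hfin
  have hF : Finite (WZ (13 * D) (128 * D ^ 2)).toAffine.Point :=
    Finite.of_injective (toP D) (toP_inj D)
  have hdisc : ((((13 * D : ℤ)) : ℚ) ^ 2 - 4 * ((128 * D ^ 2 : ℤ) : ℚ)) = -(343 * (D : ℚ) ^ 2) := by
    push_cast
    ring
  have key := Pool.Agent.Y545.Z702.t_TOR (13 * D) (128 * D ^ 2) (t.1 * t.2.2)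
    (mul_ne_zero (by norm_num) (pow_ne_zero 2 hD))
    (by
      have e : (13 * D) ^ 2 - 4 * (128 * D ^ 2) = -(343 * D ^ 2) := by ring
      rw [e]
      exact neg_ne_zero.2 (mul_ne_zero (by norm_num) (pow_ne_zero 2 hD)))
    (by
      have e : ((128 * D ^ 2 : ℤ) : ℚ) = 2 * (8 * (D : ℚ)) ^ 2 := by
        push_cast
        ring
      rw [e]
      exact nsq_two (mul_ne_zero (by norm_num) hD'))
    (by
      rw [hdisc]
      intro hsq
      have h5 := hsq.nonneg
      have h6 : 0 < (D : ℚ) ^ 2 := by positivity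
      linarith) hF
    ⟨t.1 / t.2.2, t.2.1 / t.2.2, 1 / t.2.2, div_ne_zero h1' h3', by
      rw [hdisc]
      push_cast
      field_simp
      linear_combination he', by
      push_cast
      field_simp⟩
  rcases key with h | h
  · exact hs1 (sq_of (Rat.isSquare_intCast_iff.1 h))
  · rw [hdisc] at h
    refine hs2 (sq_of (Rat.isSquare_intCast_iff.1 ?_))
    obtain ⟨s, hs⟩ := h
    refine ⟨s / (7 * D), ?_⟩
    push_cast at hs ⊢
    field_simp
    linear_combination hs

end Pool.Agent.N227.AG.SND2
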